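import Pool.Agent.Lib.MP_5349a4_pr.M.Base
import Pool.Agent.Lib.MP_5349a4_pr.M.Iface1

/-!
# CAMP: Campbell formula for the cluster
-/

set_option autoImplicit false
open MeasureTheory Set
open scoped ENNReal NNReal

namespace Pool.Agent.Lib.MP_5349a4_pr.H27

theorem camp (hM : MeckeStatement) (hC : ClbStatement) (hCM : ConMStatement) : CampStatement := by
  intro E _ _ ρ _ _ adj f x hadj hf
  have h1 := (hCM E adj hadj).1
  have h2 : Measurable fun q : E × Cfg E => ind (Con adj (pt q.2) x q.1) * f q.1 := by
    refine Measurable.mul (measurable_ind ?_) (hf.comp measurable_fst)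
    exact (measurable_const.prodMk (measurable_fst.prodMk measurable_snd) :
      Measurable fun q : E × Cfg E => (x, q.1, q.2)) h1
  rw [(hM E ρ (fun p P => ind (Con adj P x p) * f p) h2).1]
  refine lintegral_congr fun p => ?_
  have h3 : ∀ ω : Cfg E, ind (Con adj (insert p (pt ω)) x p) = ind (Con adj (pt ω) x p) :=
    fun ω => ind_congr (hC E adj (pt ω) (pt ω) x p).2.2.1
  simp only [h3]
  have h4 : MeasurableSet {ω : Cfg E | Con adj (pt ω) x p} :=
    (measurable_const.prodMk (measurable_const.prodMk measurable_id) :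
      Measurable fun ω : Cfg E => (x, p, ω)) h1
  rw [lintegral_mul_const _ (measurable_ind h4), lintegral_ind h4]
  rfl

end Pool.Agent.Lib.MP_5349a4_pr.H27
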