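import Pool.Agent.Lib.MP_5349a4_pr.M.H27.Prob

/-!
# LIP: adding points changes expectations by at most the added mass
-/

set_option autoImplicit false
open MeasureTheory Set
open scoped ENNReal NNReal

namespace Pool.Agent.Lib.MP_5349a4_pr.H27

open H38

theorem wk_succ_le {E : Type} [MeasurableSpace E] (ρ : Measure E) (k : ℕ) :
    wk ρ (k + 1) ≤ wk ρ k := by
  rw [← wk_succ ρ k]
  have : (1 : ℝ≥0∞) ≤ ((k + 1 : ℕ) : ℝ≥0∞) := by
    exact_mod_cast Nat.succ_le_succ (Nat.zero_le k)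
  calc wk ρ (k + 1) = wk ρ (k + 1) * 1 := (mul_one _).symm
    _ ≤ _ := by gcongr

theorem measurableSet_nonempty {E : Type} [MeasurableSpace E] :
    MeasurableSet {ω : Cfg E | pt ω ≠ ∅} := by
  rw [measurableSet_cfg]
  intro k
  rcases Nat.eq_zero_or_pos k with rfl | hk
  · convert MeasurableSet.empty using 1
    ext x
    simp only [Set.mem_ofPred_eq, Set.mem_empty_iff_false, iff_false, not_not]
    simp [pt]
  · convert MeasurableSet.univ using 1
    ext x
    simp only [Set.mem_ofPred_eq, Set.mem_univ, iff_true]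
    have : Nonempty (Fin k) := ⟨⟨0, hk⟩⟩
    exact (Set.range_nonempty x).ne_empty

theorem nonempty_le {E : Type} [MeasurableSpace E] (σ : Measure E) [IsFiniteMeasure σ] :
    ∫⁻ ω, ind (pt ω ≠ ∅) ∂PL σ ≤ σ univ := by
  rw [lintegral_PL, tsum_eq_zero_add' ENNReal.summable]
  have h0 : ∫⁻ x : Fin 0 → E, ind (pt (⟨0, x⟩ : Cfg E) ≠ ∅) ∂(Measure.pi fun _ : Fin 0 => σ) = 0 := by
    have : ∀ x : Fin 0 → E, ind (pt (⟨0, x⟩ : Cfg E) ≠ ∅) = 0 := by
      intro x
      apply ind_not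
      simp [pt]
    simp only [this, lintegral_zero]
  rw [h0, mul_zero, zero_add]
  calc ∑' k : ℕ, wk σ (k + 1) *
        ∫⁻ x : Fin (k + 1) → E, ind (pt (⟨k + 1, x⟩ : Cfg E) ≠ ∅) ∂(Measure.pi fun _ => σ)
      ≤ ∑' k : ℕ, (wk σ k * (σ univ) ^ k) * σ univ := by
        refine ENNReal.tsum_le_tsum fun k => ?_
        rw [mul_assoc, ← pow_succ]
        refine mul_le_mul' (wk_succ_le σ k) ?_
        calc ∫⁻ x : Fin (k + 1) → E, ind (pt (⟨k + 1, x⟩ : Cfg E) ≠ ∅) ∂(Measure.pi fun _ => σ)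
            ≤ ∫⁻ _x : Fin (k + 1) → E, 1 ∂(Measure.pi fun _ => σ) :=
              lintegral_mono fun x => ind_le_one _
          _ = (σ univ) ^ (k + 1) := by
              rw [lintegral_one, Measure.pi_univ]
              simp
    _ = σ univ := by rw [ENNReal.tsum_mul_right, tsum_wk, one_mul]

theorem lip (hS : SuperStatement) : LipStatement := by
  intro E _ ρ σ _ _ f hf hf1
  have hP : IsProbabilityMeasure (PL ρ) := (prob E ρ).1
  have hP' : IsProbabilityMeasure (PL σ) := (prob E σ).1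
  have hm : Measurable fun ω : Cfg E => ind (pt ω ≠ ∅) := measurable_ind measurableSet_nonempty
  rw [hS E ρ σ f hf]
  constructor
  · calc ∫⁻ ω, ∫⁻ ω', f (pt ω ∪ pt ω') ∂PL σ ∂PL ρ
        ≤ ∫⁻ ω, ∫⁻ ω', (f (pt ω) + ind (pt ω' ≠ ∅)) ∂PL σ ∂PL ρ := by
          refine lintegral_mono fun ω => lintegral_mono fun ω' => ?_
          by_cases h : pt ω' = ∅
          · rw [h, Set.union_empty]; exact le_self_add
          · rw [ind_of h]; exact (hf1 _).trans le_add_self
      _ = ∫⁻ ω, (f (pt ω) + ∫⁻ ω', ind (pt ω' ≠ ∅) ∂PL σ) ∂PL ρ := by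
          congr 1
          funext ω
          rw [lintegral_add_right _ hm, lintegral_const, measure_univ, mul_one]
      _ = ∫⁻ ω, f (pt ω) ∂PL ρ + ∫⁻ ω', ind (pt ω' ≠ ∅) ∂PL σ := by
          rw [lintegral_add_right _ measurable_const, lintegral_const, measure_univ, mul_one]
      _ ≤ _ := by gcongr; exact nonempty_le σ
  · calc ∫⁻ ω, f (pt ω) ∂PL ρ = ∫⁻ ω, ∫⁻ _ω', f (pt ω) ∂PL σ ∂PL ρ := by
          congr 1
          funext ω
          rw [lintegral_const, measure_univ, mul_one]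
      _ ≤ ∫⁻ ω, ∫⁻ ω', (f (pt ω ∪ pt ω') + ind (pt ω' ≠ ∅)) ∂PL σ ∂PL ρ := by
          refine lintegral_mono fun ω => lintegral_mono fun ω' => ?_
          by_cases h : pt ω' = ∅
          · rw [h, Set.union_empty]; exact le_self_add
          · rw [ind_of h]; exact (hf1 _).trans le_add_self
      _ = ∫⁻ ω, (∫⁻ ω', f (pt ω ∪ pt ω') ∂PL σ + ∫⁻ ω', ind (pt ω' ≠ ∅) ∂PL σ) ∂PL ρ := by
          congr 1
          funext ω
          rw [lintegral_add_right _ hm]
      _ = ∫⁻ ω, ∫⁻ ω', f (pt ω ∪ pt ω') ∂PL σ ∂PL ρ + ∫⁻ ω', ind (pt ω' ≠ ∅) ∂PL σ := by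
          rw [lintegral_add_right _ measurable_const, lintegral_const, measure_univ, mul_one]
      _ ≤ _ := by gcongr; exact nonempty_le σ

end Pool.Agent.Lib.MP_5349a4_pr.H27
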