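import Pool.Agent.Lib.MP_5349a4_pr.M.Base
import Pool.Agent.Lib.MP_5349a4_pr.M.Iface1
import Pool.Agent.Lib.MP_5349a4_pr.M.H38.Tuple

/-!
# PROB: the Poisson law is a probability, null sets are avoided
-/

set_option autoImplicit false
open MeasureTheory Set
open scoped ENNReal NNReal

namespace Pool.Agent.Lib.MP_5349a4_pr.H27

open H38

variable {E : Type} [MeasurableSpace E]

theorem tsum_wk (ρ : Measure E) [IsFiniteMeasure ρ] :
    ∑' k : ℕ, wk ρ k * (ρ univ) ^ k = 1 := by
  have h0 : (0 : ℝ) ≤ (ρ univ).toReal := ENNReal.toReal_nonneg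
  have h1 : ρ univ = ENNReal.ofReal (ρ univ).toReal :=
    (ENNReal.ofReal_toReal (measure_ne_top ρ univ)).symm
  have h2 : ∀ k : ℕ, wk ρ k * (ρ univ) ^ k =
      ENNReal.ofReal (Real.exp (-(ρ univ).toReal)) *
        ENNReal.ofReal ((ρ univ).toReal ^ k / k.factorial) := by
    intro k
    unfold wk
    rw [ENNReal.ofReal_div_of_pos (by positivity), ENNReal.ofReal_pow h0, ENNReal.ofReal_natCast,
      ← h1, ENNReal.div_eq_inv_mul, ENNReal.div_eq_inv_mul]
    ring
  simp only [h2]
  rw [ENNReal.tsum_mul_left, ← ENNReal.ofReal_tsum_of_nonneg (fun k => by positivity)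
    (Real.summable_pow_div_factorial _)]
  have h3 : ∑' k : ℕ, (ρ univ).toReal ^ k / (k.factorial : ℝ) = Real.exp (ρ univ).toReal := by
    rw [Real.exp_eq_exp_ℝ, NormedSpace.exp_eq_tsum_div]
  rw [h3, ← ENNReal.ofReal_mul (Real.exp_nonneg _), ← Real.exp_add]
  simp

theorem prob : ProbStatement := by
  intro E _ ρ _
  refine ⟨⟨?_⟩, ?_⟩
  · rw [← lintegral_one, lintegral_PL]
    have : ∀ k : ℕ, ∫⁻ _x, (1 : ℝ≥0∞) ∂(Measure.pi fun _ : Fin k => ρ) = (ρ univ) ^ k := by
      intro k
      rw [lintegral_one, Measure.pi_univ]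
      simp
    simp only [this]
    exact tsum_wk ρ
  · intro N hN h0
    unfold PL
    rw [Measure.ae_sum_iff]
    intro k
    refine Measure.ae_smul_measure ?_ _
    have hm : MeasurableSet {ω : Cfg E | ∀ p ∈ pt ω, p ∉ N} := by
      rw [measurableSet_cfg]
      intro k
      have : {x : Fin k → E | (⟨k, x⟩ : Cfg E) ∈ {ω : Cfg E | ∀ p ∈ pt ω, p ∉ N}} =
          ⋂ i : Fin k, {x : Fin k → E | x i ∈ Nᶜ} := by
        ext x
        simp only [Set.mem_ofPred_eq, Set.mem_iInter, Set.mem_compl_iff]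
        constructor
        · intro h i
          exact h _ ⟨i, rfl⟩
        · rintro h p ⟨i, rfl⟩
          exact h i
      rw [this]
      exact MeasurableSet.iInter fun i => measurable_pi_apply i hN.compl
    rw [ae_map_iff (measurable_mk k).aemeasurable hm]
    have h1 : ∀ i : Fin k, ∀ᵐ x ∂(Measure.pi fun _ : Fin k => ρ), x i ∉ N := by
      intro i
      have h2 := (Measure.tendsto_eval_ae_ae (μ := fun _ : Fin k => ρ) (i := i))
      exact h2.eventually (measure_eq_zero_iff_ae_notMem.1 h0)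
    filter_upwards [ae_all_iff.2 h1] with x hx
    rintro p ⟨i, rfl⟩
    exact hx i

end Pool.Agent.Lib.MP_5349a4_pr.H27
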