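import Pool.Agent.Lib.MP_5349a4_pr.M.Base
import Pool.Agent.Lib.MP_5349a4_pr.M.Iface3
import Pool.Agent.Lib.MP_5349a4_pr.M.H27.Prob

/-!
# PZ: Paley-Zygmund for the size of the cluster in a ball
-/

set_option autoImplicit false
open MeasureTheory Set
open scoped ENNReal NNReal

namespace Pool.Agent.Lib.MP_5349a4_pr.H27

theorem cnt_eq_ncard {E : Type} (adj : E → E → Prop) (P : Set E) (hP : P.Finite) (x : E) :
    cnt adj P x = ((clus adj P x).ncard : ℝ≥0∞) := by
  classical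
  have hc : (clus adj P x).Finite := hP.subset fun p hp => hp.1
  have h1 : ∀ y : E, P.indicator (fun p => ind (Con adj P x p)) y =
      (clus adj P x).indicator (fun _ => (1 : ℝ≥0∞)) y := by
    intro y
    by_cases hy : y ∈ P
    · rw [Set.indicator_of_mem hy]
      by_cases h : Con adj P x y
      · rw [ind_of h, Set.indicator_of_mem (show y ∈ clus adj P x from ⟨hy, h⟩)]
      · rw [ind_not h, Set.indicator_of_notMem (fun h' : y ∈ clus adj P x => h h'.2)]
    · rw [Set.indicator_of_notMem hy,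
        Set.indicator_of_notMem (fun h' : y ∈ clus adj P x => hy h'.1)]
  unfold cnt
  rw [tsum_subtype P (fun p => ind (Con adj P x p))]
  simp only [h1]
  rw [← tsum_subtype (clus adj P x) (fun _ => (1 : ℝ≥0∞)), ENNReal.tsum_set_one,
    ← hc.cast_ncard_eq]
  simp

theorem pz (hS : SecMStatement) (hC : ConMStatement) : PzStatement := by
  intro d lam κ A hcrit
  have hA1 : (1 : ℝ) ≤ (A : ℝ) := by exact_mod_cast hcrit.hA
  refine ⟨1 / (64 * (A : ℝ) ^ 3 * 2 ^ (3 * κ)), by positivity, fun R hR => ?_⟩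
  obtain ⟨h1, h2⟩ := hS d lam κ A hcrit R hR
  have hfin : IsFiniteMeasure (leb lam (bal (0 : Eu d) R)) := finite_leb lam (dom_bal 0 R).2
  have hPr : IsProbabilityMeasure (PL (leb lam (bal (0 : Eu d) R))) := (prob _ _).1
  have hm : Measurable fun ω : Cfg (Eu d) => cnt (ad 1) (pt ω) (0 : Eu d) :=
    (hC (Eu d) (ad 1) (madj_ad 1)).2.2.2.comp (measurable_const.prodMk measurable_id)
  have hmm : Measurable fun ω : Cfg (Eu d) =>
      cnt (ad 1) (pt ω) (0 : Eu d) * cnt (ad 1) (pt ω) (0 : Eu d) := hm.mul hm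
  set μ := PL (leb lam (bal (0 : Eu d) R)) with hμ
  have hE : {ω : Cfg (Eu d) | R / 4 ≤ ((clus (ad 1) (pt ω) (0 : Eu d)).ncard : ℝ)} =
      {ω | ENNReal.ofReal (R / 4) ≤ cnt (ad 1) (pt ω) (0 : Eu d)} := by
    ext ω
    simp only [Set.mem_ofPred_eq]
    rw [cnt_eq_ncard (ad 1) (pt ω) (pt_finite ω) 0, ENNReal.ofReal_le_natCast]
  have hEm : MeasurableSet {ω | ENNReal.ofReal (R / 4) ≤ cnt (ad 1) (pt ω) (0 : Eu d)} :=
    measurableSet_le measurable_const hm
  rw [hE]
  set S : ℝ := 4 * ((A : ℝ) * (2 * R) ^ κ) ^ 3 with hSdef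
  have hS0 : 0 < S := by positivity
  have h2' : ∫⁻ ω, cnt (ad 1) (pt ω) 0 * cnt (ad 1) (pt ω) 0 ∂μ ≤ ENNReal.ofReal S := by
    refine h2.trans (le_of_eq ?_)
    have e1 : ENNReal.ofReal S = ENNReal.ofReal 4 * (A * ENNReal.ofReal ((2 * R) ^ κ)) ^ 3 := by
      rw [hSdef, ENNReal.ofReal_mul (by norm_num : (0 : ℝ) ≤ 4), ENNReal.ofReal_pow (by positivity),
        ENNReal.ofReal_mul (NNReal.coe_nonneg A), ENNReal.ofReal_coe_nnreal]
    rw [e1]
    norm_num
  set p : ℝ := (μ {ω | ENNReal.ofReal (R / 4) ≤ cnt (ad 1) (pt ω) (0 : Eu d)}).toReal with hp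
  have hp' : μ {ω | ENNReal.ofReal (R / 4) ≤ cnt (ad 1) (pt ω) (0 : Eu d)} = ENNReal.ofReal p :=
    (ENNReal.ofReal_toReal (measure_ne_top _ _)).symm
  have hp0 : 0 ≤ p := ENNReal.toReal_nonneg
  -- t = R / (4 S)
  set t : ℝ := R / (4 * S) with ht
  have ht0 : 0 < t := by positivity
  have hpt : ∀ ω : Cfg (Eu d), cnt (ad 1) (pt ω) (0 : Eu d) ≤ ENNReal.ofReal (R / 4) +
      (ENNReal.ofReal (t / 2) * (cnt (ad 1) (pt ω) 0 * cnt (ad 1) (pt ω) 0) +
        ENNReal.ofReal (1 / (2 * t)) *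
          ind (ENNReal.ofReal (R / 4) ≤ cnt (ad 1) (pt ω) (0 : Eu d))) := by
    intro ω
    by_cases h : ENNReal.ofReal (R / 4) ≤ cnt (ad 1) (pt ω) (0 : Eu d)
    · rw [ind_of h, mul_one]
      refine le_trans ?_ le_add_self
      rw [cnt_eq_ncard (ad 1) (pt ω) (pt_finite ω) 0]
      set n := (clus (ad 1) (pt ω) (0 : Eu d)).ncard
      have h3 : ((n : ℝ≥0∞)) = ENNReal.ofReal (n : ℝ) := (ENNReal.ofReal_natCast n).symm
      rw [h3, ← ENNReal.ofReal_mul (by positivity), ← ENNReal.ofReal_mul (by positivity),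
        ← ENNReal.ofReal_add (by positivity) (by positivity)]
      apply ENNReal.ofReal_le_ofReal
      have h4 : 0 ≤ (t * n - 1) ^ 2 := sq_nonneg _
      have h5 : t / 2 * ((n : ℝ) * n) + 1 / (2 * t) - n = (t * n - 1) ^ 2 / (2 * t) := by
        field_simp
        ring
      have h6 : 0 ≤ (t * n - 1) ^ 2 / (2 * t) := by positivity
      linarith
    · exact (not_le.1 h).le.trans le_self_add
  have h3 : ENNReal.ofReal (R / 2) ≤ ENNReal.ofReal (R / 4) +
      (ENNReal.ofReal (t / 2) * ENNReal.ofReal S + ENNReal.ofReal (1 / (2 * t)) *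
        ENNReal.ofReal p) := by
    calc ENNReal.ofReal (R / 2) ≤ ∫⁻ ω, cnt (ad 1) (pt ω) 0 ∂μ := h1
      _ ≤ ∫⁻ ω, (ENNReal.ofReal (R / 4) +
          (ENNReal.ofReal (t / 2) * (cnt (ad 1) (pt ω) 0 * cnt (ad 1) (pt ω) 0) +
            ENNReal.ofReal (1 / (2 * t)) * ind (ENNReal.ofReal (R / 4) ≤
              cnt (ad 1) (pt ω) (0 : Eu d)))) ∂μ := lintegral_mono hpt
      _ = ENNReal.ofReal (R / 4) + (ENNReal.ofReal (t / 2) *
            ∫⁻ ω, cnt (ad 1) (pt ω) 0 * cnt (ad 1) (pt ω) 0 ∂μ +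
            ENNReal.ofReal (1 / (2 * t)) *
              μ {ω | ENNReal.ofReal (R / 4) ≤ cnt (ad 1) (pt ω) (0 : Eu d)}) := by
          rw [lintegral_add_left measurable_const, lintegral_const, measure_univ, mul_one,
            lintegral_add_left (hmm.const_mul _), lintegral_const_mul _ hmm,
            lintegral_const_mul _ (measurable_ind hEm), lintegral_ind hEm]
      _ ≤ _ := by
          rw [hp']
          gcongr
  rw [← ENNReal.ofReal_mul (by positivity), ← ENNReal.ofReal_mul (by positivity),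
    ← ENNReal.ofReal_add (by positivity) (by positivity),
    ← ENNReal.ofReal_add (by positivity) (by positivity),
    ENNReal.ofReal_le_ofReal_iff (by positivity)] at h3
  rw [hp']
  apply ENNReal.ofReal_le_ofReal
  have h4 : t / 2 * S = R / 8 := by rw [ht]; field_simp; norm_num
  have h5 : 1 / (2 * t) * p = 2 * S * p / R := by
    rw [ht]
    have : R ≠ 0 := by positivity
    field_simp
    norm_num
  rw [h4, h5] at h3
  have h6 : R / 8 ≤ 2 * S * p / R := by linarith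
  have hR0 : 0 < R := by linarith
  have h7 : R * R ≤ 16 * S * p := by
    rw [le_div_iff₀ hR0] at h6
    nlinarith
  have h8 : S = 4 * (A : ℝ) ^ 3 * 2 ^ (3 * κ) * R ^ (3 * κ) := by
    rw [hSdef, mul_pow, mul_pow, mul_pow, ← pow_mul, ← pow_mul, mul_comm κ 3]
    ring
  have h9 : (1 : ℝ) ≤ R * R := by nlinarith
  rw [div_div, div_le_iff₀ (by positivity)]
  have h10 : 1 ≤ 16 * S * p := h9.trans h7
  rw [h8] at h10
  linarith

end Pool.Agent.Lib.MP_5349a4_pr.H27
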