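import Pool.Agent.Lib.MP_5349a4_pr.M.Base
import Pool.Agent.Lib.MP_5349a4_pr.M.Iface4
import Pool.Agent.Lib.MP_5349a4_pr.M.H27.Prob

/-!
# ROTM (9.4): rotation invariance of the occupation measure and its consequence for far balls
-/

set_option autoImplicit false
open MeasureTheory Set
open scoped ENNReal NNReal

namespace Pool.Agent.Lib.MP_5349a4_pr.H27

variable {d : ℕ}

/-! ### the invasion stays in the configuration -/

theorem inv_sub (P : Set (Eu d)) (o : Eu d) (k : ℕ) : inv P o k ⊆ insert o P := by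
  induction k with
  | zero => intro x hx; exact Or.inl hx
  | succ k ih =>
    intro x hx
    rcases hx with hx | hx
    · exact ih hx
    · exact Or.inr hx.1.1

theorem newp_sub (P : Set (Eu d)) (o : Eu d) (k : ℕ) : newp P o k ⊆ insert o P := by
  cases k with
  | zero => intro x hx; exact Or.inl hx
  | succ k => exact fun x hx => inv_sub P o (k + 1) hx.1

theorem newp_countable {P : Set (Eu d)} (hP : P.Finite) (o : Eu d) (k : ℕ) :
    Countable (newp P o k) :=
  ((hP.insert o).subset (newp_sub P o k)).countable.to_subtype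

/-! ### linearity of occupation measures -/

theorem occ_mono (th : ℕ → ℝ) (P : Set (Eu d)) (o : Eu d) (n : ℕ) {f g : Eu d → ℝ≥0∞}
    (h : ∀ b, f b ≤ g b) : occ th P o n f ≤ occ th P o n g := by
  unfold occ nnew
  refine Finset.sum_le_sum fun i _ => ?_
  gcongr
  exact h _

theorem occ_const_mul (th : ℕ → ℝ) (P : Set (Eu d)) (o : Eu d) (n : ℕ) (c : ℝ≥0∞)
    (f : Eu d → ℝ≥0∞) : occ th P o n (fun b => c * f b) = c * occ th P o n f := by
  unfold occ nnew
  rw [Finset.mul_sum]
  refine Finset.sum_congr rfl fun i _ => ?_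
  rw [ENNReal.tsum_mul_left]
  ring

theorem lintegral_occ {T : Type} [MeasurableSpace T] (μ : Measure T) (th : ℕ → ℝ)
    {P : Set (Eu d)} (hP : P.Finite) (o : Eu d) (n : ℕ) (f : T → Eu d → ℝ≥0∞)
    (hf : Measurable fun q : T × Eu d => f q.1 q.2) :
    ∫⁻ t, occ th P o n (f t) ∂μ = occ th P o n (fun b => ∫⁻ t, f t b ∂μ) := by
  have h1 : ∀ b : Eu d, Measurable fun t => f t b := fun b =>
    hf.comp (measurable_id.prodMk measurable_const)
  unfold occ nnew
  have h2 : ∀ i, Measurable fun t => ∑' p : newp P o i, f t p := fun i => by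
    have := newp_countable hP o i
    exact Measurable.tsum fun p => h1 p
  rw [lintegral_finsetSum _ fun i _ => (h2 i).const_mul _]
  refine Finset.sum_congr rfl fun i _ => ?_
  rw [lintegral_const_mul _ (h2 i)]
  have := newp_countable hP o i
  rw [lintegral_tsum fun p : newp P o i => (h1 p).aemeasurable]

theorem occ_meas (hI : InvMStatement) {T : Type} [MeasurableSpace T] (th : ℕ → ℝ) (n : ℕ)
    (f : T → Eu d → ℝ≥0∞) (hf : Measurable fun q : T × Eu d => f q.1 q.2) :
    Measurable fun q : T × Eu d × Cfg (Eu d) => occ th (pt q.2.2) q.2.1 n (f q.1) := by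
  unfold occ
  refine Finset.measurable_fun_sum _ fun i _ => ?_
  obtain ⟨-, -, -, h4, h5, -⟩ := hI d i
  refine Measurable.mul ?_ (h5 T f hf)
  exact (measurable_ind (h4 th)).comp measurable_snd

attribute [local irreducible] occ

theorem occ_meas' (hI : InvMStatement) {T : Type} [MeasurableSpace T] (th : ℕ → ℝ) (n : ℕ)
    (o : Eu d) (f : T → Eu d → ℝ≥0∞) (hf : Measurable fun q : T × Eu d => f q.1 q.2) :
    Measurable fun q : T × Cfg (Eu d) => occ th (pt q.2) o n (f q.1) := by
  have h1 : Measurable fun q : T × Cfg (Eu d) => (q.1, o, q.2) :=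
    measurable_fst.prodMk (measurable_const.prodMk measurable_snd)
  exact (occ_meas hI th n f hf).comp h1

theorem mun_mono (lam : ℝ≥0) (th : ℕ → ℝ) (L : ℝ) (n : ℕ) {f g : Eu d → ℝ≥0∞}
    (h : ∀ b, f b ≤ g b) : mun d lam th L n f ≤ mun d lam th L n g :=
  lintegral_mono fun _ => occ_mono _ _ _ _ h

theorem mun_const_mul (lam : ℝ≥0) (th : ℕ → ℝ) (L : ℝ) (n : ℕ) (c : ℝ≥0∞) (hc : c ≠ ∞)
    (f : Eu d → ℝ≥0∞) : mun d lam th L n (fun b => c * f b) = c * mun d lam th L n f := by
  unfold mun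
  simp only [occ_const_mul]
  exact lintegral_const_mul' _ _ hc

theorem lintegral_mun (hI : InvMStatement) {T : Type} [MeasurableSpace T] (μ : Measure T)
    [SFinite μ] (lam : ℝ≥0) (th : ℕ → ℝ) (L : ℝ) (n : ℕ) (f : T → Eu d → ℝ≥0∞)
    (hf : Measurable fun q : T × Eu d => f q.1 q.2) :
    ∫⁻ t, mun d lam th L n (f t) ∂μ = mun d lam th L n (fun b => ∫⁻ t, f t b ∂μ) := by
  have hfin : IsFiniteMeasure (leb lam (bal (0 : Eu d) L)) := finite_leb lam (dom_bal 0 L).2
  have hP : IsProbabilityMeasure (PL (leb lam (bal (0 : Eu d) L))) := (prob _ _).1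
  unfold mun
  rw [lintegral_lintegral_swap (occ_meas' hI th n 0 f hf).aemeasurable]
  exact lintegral_congr fun ω => lintegral_occ μ th (pt_finite ω) 0 n f hf

/-! ### rotation invariance -/

theorem map_leb_rot (lam : ℝ≥0) (L : ℝ) (e : Eu d ≃ₗᵢ[ℝ] Eu d) :
    (leb lam (bal (0 : Eu d) L)).map e = leb lam (bal (0 : Eu d) L) := by
  unfold leb
  rw [Measure.map_smul]
  congr 1
  have h1 : e ⁻¹' (bal (0 : Eu d) L) = bal (0 : Eu d) L := by
    ext z
    simp [bal]
  have h2 := e.measurePreserving.restrict_preimage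
    (s := bal (0 : Eu d) L) (Metric.isClosed_closedBall.measurableSet)
  rw [h1] at h2
  exact h2.map_eq

theorem newp_rot (hS : InvScStatement) (P : Set (Eu d)) (e : Eu d ≃ₗᵢ[ℝ] Eu d) (i : ℕ) :
    newp (e '' P) 0 i = e '' newp P 0 i := by
  have h1 : ∀ k, inv (e '' P) 0 k = e '' inv P 0 k := by
    intro k
    have := ((hS d P 0 k).2.2.2.2 e).1
    rwa [map_zero] at this
  cases i with
  | zero =>
    unfold newp
    rw [Set.image_singleton, map_zero]
  | succ i =>
    show inv (e '' P) 0 (i + 1) \ inv (e '' P) 0 i = e '' (inv P 0 (i + 1) \ inv P 0 i)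
    rw [h1, h1, Set.image_sdiff e.injective]

theorem occ_rot (hS : InvScStatement) (th : ℕ → ℝ) (P : Set (Eu d)) (e : Eu d ≃ₗᵢ[ℝ] Eu d)
    (n : ℕ) (f : Eu d → ℝ≥0∞) :
    occ th (e '' P) 0 n f = occ th P 0 n (fun b => f (e b)) := by
  have h2 : ∀ k, lab (e '' P) 0 k = lab P 0 k := by
    intro k
    have := ((hS d P 0 k).2.2.2.2 e).2
    rwa [map_zero] at this
  unfold occ
  refine Finset.sum_congr rfl fun i _ => ?_
  congr 1
  · apply ind_congr
    unfold good
    simp only [h2]
  · unfold nnew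
    rw [newp_rot hS]
    exact tsum_image (g := e) f e.injective.injOn

theorem mun_rot (hS : InvScStatement) (hG : ImgStatement) (hM : InvMStatement) (lam : ℝ≥0)
    (th : ℕ → ℝ) (L : ℝ) (n : ℕ) (e : Eu d ≃ₗᵢ[ℝ] Eu d) (f : Eu d → ℝ≥0∞) (hf : Measurable f) :
    mun d lam th L n (fun b => f (e b)) = mun d lam th L n f := by
  have hfin : IsFiniteMeasure (leb lam (bal (0 : Eu d) L)) := finite_leb lam (dom_bal 0 L).2
  have hcm : CM fun P : Set (Eu d) => occ th P 0 n f := by
    unfold CM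
    have h0 : Measurable fun ω : Cfg (Eu d) => ((), ω) := measurable_const.prodMk measurable_id
    have h00 : Measurable fun q : Unit × Eu d => f q.2 := hf.comp measurable_snd
    exact (occ_meas' (T := Unit) hM th n 0 (fun _ => f) h00).comp h0
  have h1 := hG (Eu d) (Eu d) (leb lam (bal (0 : Eu d) L)) e (fun P => occ th P 0 n f)
    e.continuous.measurable hcm
  rw [map_leb_rot] at h1
  unfold mun
  rw [h1]
  exact lintegral_congr fun ω => (occ_rot hS th (pt ω) e n f).symm

/-! ### far balls -/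

/-- the shell -/
def Sh (d : ℕ) (ρ : ℝ) : Set (Eu d) := {u | ρ ≤ ‖u‖ ∧ ‖u‖ ≤ ρ + 1}

theorem sh_meas (ρ : ℝ) : MeasurableSet (Sh d ρ) :=
  (measurableSet_le measurable_const measurable_norm).inter
    (measurableSet_le measurable_norm measurable_const)

/-- there is a linear isometry between vectors of the same norm -/
theorem exists_rot (u v : Eu d) (h : ‖u‖ = ‖v‖) : ∃ e : Eu d ≃ₗᵢ[ℝ] Eu d, e u = v :=
  ⟨Submodule.reflection (ℝ ∙ (u - v))ᗮ, Submodule.reflection_sub h⟩

theorem ball_le (hS : InvScStatement) (hG : ImgStatement) (hM : InvMStatement) (lam : ℝ≥0)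
    (th : ℕ → ℝ) (L : ℝ) (n : ℕ) (v u : Eu d) (hv : 5 ≤ ‖v‖) (hu : u ∈ Sh d ‖v‖) :
    mun d lam th L n (fun b => ind (b ∈ bal v 4)) ≤
      mun d lam th L n (fun b => ind (b ∈ bal u 5)) := by
  have hu0 : 0 < ‖u‖ := lt_of_lt_of_le (by linarith) hu.1
  set w : Eu d := (‖v‖ / ‖u‖) • u with hw
  have hwn : ‖w‖ = ‖v‖ := by
    rw [hw, norm_smul, Real.norm_of_nonneg (by positivity)]
    field_simp
  obtain ⟨e, he⟩ := exists_rot w v hwn
  have hwu : dist w u ≤ 1 := by
    have h1 : w - u = (‖v‖ / ‖u‖ - 1) • u := by rw [hw, sub_smul, one_smul]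
    rw [dist_eq_norm, h1, norm_smul, Real.norm_eq_abs]
    have h2 : |‖v‖ / ‖u‖ - 1| * ‖u‖ = |‖v‖ - ‖u‖| := by
      have h3 : (‖v‖ / ‖u‖ - 1) * ‖u‖ = ‖v‖ - ‖u‖ := by field_simp
      calc |‖v‖ / ‖u‖ - 1| * ‖u‖ = |‖v‖ / ‖u‖ - 1| * |‖u‖| := by rw [abs_of_pos hu0]
        _ = _ := by rw [← abs_mul, h3]
    rw [h2, abs_le]
    constructor <;> linarith [hu.1, hu.2]
  have hb : MeasurableSet {b : Eu d | b ∈ bal v 4} := Metric.isClosed_closedBall.measurableSet
  rw [← mun_rot hS hG hM lam th L n e (fun b => ind (b ∈ bal v 4)) (measurable_ind hb)]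
  refine mun_mono _ _ _ _ fun b => ind_mono fun h => ?_
  unfold bal at h ⊢
  rw [Metric.mem_closedBall] at h ⊢
  rw [← he, e.dist_map] at h
  linarith [dist_triangle b w u]

theorem sh_vol (hd : 1 ≤ d) {ρ : ℝ} (hρ : 0 < ρ) :
    ENNReal.ofReal (ρ ^ (d - 1)) * volume (Metric.ball (0 : Eu d) 1) ≤ volume (Sh d ρ) := by
  have : Nontrivial (Eu d) := by
    have : Nonempty (Fin d) := ⟨⟨0, by omega⟩⟩
    infer_instance
  have h1 : Metric.closedBall (0 : Eu d) (ρ + 1) ⊆ Sh d ρ ∪ Metric.ball (0 : Eu d) ρ := by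
    intro x hx
    rw [mem_closedBall_zero_iff] at hx
    by_cases h : ρ ≤ ‖x‖
    · exact Or.inl ⟨h, hx⟩
    · exact Or.inr (by rw [mem_ball_zero_iff]; exact not_le.1 h)
  have h2 := (measure_mono h1).trans (measure_union_le (μ := (volume : Measure (Eu d))) _ _)
  rw [Measure.addHaar_closedBall _ _ (by positivity), Measure.addHaar_ball _ _ hρ.le,
    finrank_euclideanSpace, Fintype.card_fin] at h2
  have hv1 : volume (Metric.ball (0 : Eu d) 1) ≠ ∞ := measure_ball_lt_top.ne
  have h3 : ENNReal.ofReal ((ρ + 1) ^ d) = ENNReal.ofReal ((ρ + 1) ^ d - ρ ^ d) +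
      ENNReal.ofReal (ρ ^ d) := by
    rw [← ENNReal.ofReal_add _ (by positivity)]
    · congr 1; ring
    · have : ρ ^ d ≤ (ρ + 1) ^ d := pow_le_pow_left₀ hρ.le (by linarith) d
      linarith
  rw [h3, add_mul] at h2
  have h4 : ENNReal.ofReal ((ρ + 1) ^ d - ρ ^ d) * volume (Metric.ball (0 : Eu d) 1) ≤
      volume (Sh d ρ) :=
    (ENNReal.add_le_add_iff_right (ENNReal.mul_ne_top ENNReal.ofReal_ne_top hv1)).1 h2
  refine le_trans ?_ h4
  gcongr
  obtain ⟨m, rfl⟩ : ∃ m, d = m + 1 := ⟨d - 1, by omega⟩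
  have h5 : ρ ^ m ≤ (ρ + 1) ^ m := pow_le_pow_left₀ hρ.le (by linarith) m
  rw [pow_succ, pow_succ, Nat.add_sub_cancel]
  nlinarith

theorem rotm (hS : InvScStatement) (hG : ImgStatement) (hM : InvMStatement) : RotMStatement := by
  intro d lam th L n k C hd hC hk hmu
  refine ⟨fun e f hf => mun_rot hS hG hM lam th L n e f hf, fun v hv => ?_⟩
  have : Nontrivial (Eu d) := by
    have : Nonempty (Fin d) := ⟨⟨0, by omega⟩⟩
    infer_instance
  set ρ : ℝ := ‖v‖ with hρ
  have hρ0 : 0 < ρ := by linarith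
  set v1 : ℝ≥0∞ := volume (Metric.ball (0 : Eu d) 1) with hv1
  have hv1t : v1 ≠ ∞ := measure_ball_lt_top.ne
  have hv10 : v1 ≠ 0 := (Metric.measure_ball_pos _ _ one_pos).ne'
  set q := mun d lam th L n (fun b => ind (b ∈ bal v 4)) with hq
  -- vol(Sh) q <= 5^d v1 mu(B(rho+6))
  have hmeas : MeasurableSet {q : Eu d × Eu d | q.2 ∈ bal q.1 5} := by
    unfold bal
    simp only [Metric.mem_closedBall]
    exact measurableSet_le (measurable_snd.dist measurable_fst) measurable_const
  have h1 : q * volume (Sh d ρ) ≤ ENNReal.ofReal (5 ^ d) * v1 *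
      ENNReal.ofReal (C * (ρ + 6) ^ k) := by
    calc q * volume (Sh d ρ) = ∫⁻ _u in Sh d ρ, q := by
          rw [lintegral_const, Measure.restrict_apply_univ]
      _ ≤ ∫⁻ u in Sh d ρ, mun d lam th L n (fun b => ind (b ∈ bal u 5)) :=
          setLIntegral_mono' (sh_meas ρ) fun u hu => ball_le hS hG hM lam th L n v u hv hu
      _ = mun d lam th L n (fun b => ∫⁻ u in Sh d ρ, ind (b ∈ bal u 5)) :=
          lintegral_mun hM _ lam th L n (fun u b => ind (b ∈ bal u 5)) (measurable_ind hmeas)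
      _ ≤ mun d lam th L n (fun b => (ENNReal.ofReal (5 ^ d) * v1) * ind (b ∈ bal 0 (ρ + 6))) := by
          refine mun_mono _ _ _ _ fun b => ?_
          by_cases hb : b ∈ bal (0 : Eu d) (ρ + 6)
          · rw [ind_of hb, mul_one]
            calc ∫⁻ u in Sh d ρ, ind (b ∈ bal u 5) ≤ ∫⁻ u : Eu d, ind (b ∈ bal u 5) :=
                  setLIntegral_le_lintegral _ _
              _ = volume (Metric.closedBall b 5) := by
                  have h2 : ∀ u : Eu d, ind (b ∈ bal u 5) = ind (u ∈ Metric.closedBall b 5) := by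
                    intro u
                    apply ind_congr
                    unfold bal
                    rw [Metric.mem_closedBall, Metric.mem_closedBall, dist_comm]
                  simp only [h2]
                  have h3 : MeasurableSet {u : Eu d | u ∈ Metric.closedBall b 5} :=
                    Metric.isClosed_closedBall.measurableSet
                  rw [lintegral_ind h3]
                  rfl
              _ = _ := by
                  rw [Measure.addHaar_closedBall _ _ (by norm_num), finrank_euclideanSpace,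
                    Fintype.card_fin]
          · rw [ind_not hb, mul_zero]
            refine le_of_eq ?_
            rw [setLIntegral_congr_fun (sh_meas ρ) (g := fun _ => 0), lintegral_zero]
            intro u hu
            apply ind_not
            intro h
            apply hb
            unfold bal at h ⊢
            rw [Metric.mem_closedBall] at h ⊢
            rw [dist_zero_right]
            have h3 : ‖b‖ ≤ ‖u‖ + dist b u := by
              have := norm_sub_norm_le b u
              rw [← dist_eq_norm] at this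
              linarith
            linarith [hu.2]
      _ = (ENNReal.ofReal (5 ^ d) * v1) * mun d lam th L n (fun b => ind (b ∈ bal 0 (ρ + 6))) :=
          mun_const_mul _ _ _ _ _ (ENNReal.mul_ne_top ENNReal.ofReal_ne_top hv1t) _
      _ ≤ _ := by
          gcongr
          exact hmu (ρ + 6) (by linarith)
  have h2 : q * (ENNReal.ofReal (ρ ^ (d - 1)) * v1) ≤ ENNReal.ofReal (5 ^ d) * v1 *
      ENNReal.ofReal (C * (ρ + 6) ^ k) := (mul_le_mul_right (sh_vol hd hρ0) q).trans h1
  have h3 : (q * ENNReal.ofReal (ρ ^ (d - 1))) * v1 ≤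
      (ENNReal.ofReal (5 ^ d) * ENNReal.ofReal (C * (ρ + 6) ^ k)) * v1 := by
    calc _ = q * (ENNReal.ofReal (ρ ^ (d - 1)) * v1) := by ring
      _ ≤ _ := h2
      _ = _ := by ring
  have h4 : q * ENNReal.ofReal (ρ ^ (d - 1)) ≤
      ENNReal.ofReal (5 ^ d) * ENNReal.ofReal (C * (ρ + 6) ^ k) :=
    (ENNReal.mul_le_mul_iff_left hv10 hv1t).1 h3
  have hpos : 0 < ρ ^ (d - 1) := by positivity
  rw [← ENNReal.le_div_iff_mul_le (Or.inl (by simpa using hpos)) (Or.inl ENNReal.ofReal_ne_top),
    ← ENNReal.ofReal_mul (by positivity), ← ENNReal.ofReal_div_of_pos hpos] at h4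
  refine h4.trans (ENNReal.ofReal_le_ofReal ?_)
  have h5 : ρ ^ (d - 1) = ρ ^ (d - 1 - k) * ρ ^ k := by
    rw [← pow_add]; congr 1; omega
  have h6 : (ρ + 6) ^ k ≤ 3 ^ k * ρ ^ k := by
    rw [← mul_pow]
    exact pow_le_pow_left₀ (by positivity) (by linarith) k
  have h7 : (5 : ℝ) ^ d ≤ 10 ^ d := pow_le_pow_left₀ (by norm_num) (by norm_num) d
  rw [h5, div_le_div_iff₀ (by positivity) (by positivity)]
  have h8 : 0 < ρ ^ (d - 1 - k) := by positivity
  calc 5 ^ d * (C * (ρ + 6) ^ k) * ρ ^ (d - 1 - k)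
      ≤ 10 ^ d * (C * (3 ^ k * ρ ^ k)) * ρ ^ (d - 1 - k) := by gcongr
    _ = _ := by ring

end Pool.Agent.Lib.MP_5349a4_pr.H27
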