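import Pool.Agent.Lib.MP_5349a4_pr.M.Base
import Pool.Agent.Lib.MP_5349a4_pr.M.Iface3
import Pool.Agent.Lib.MP_5349a4_pr.M.H27.Prob

/-!
# SCAL: scaling
-/

set_option autoImplicit false
open MeasureTheory Set
open scoped ENNReal NNReal

namespace Pool.Agent.Lib.MP_5349a4_pr.H27

/-! ### graphs and maps -/

section Maps

variable {E E' : Type} {adj : E → E → Prop} {adj' : E' → E' → Prop} {e : E → E'}

theorem cl_image (h : ∀ a b, adj' (e a) (e b) ↔ adj a b) (P : Set E) (x : E) :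
    cl adj' (e '' P) (e x) = e '' cl adj P x := by
  ext z
  constructor
  · intro hz
    have hz' : Relation.ReflTransGen (step adj' (e '' P)) (e x) z := hz
    induction hz' with
    | refl => exact ⟨x, Relation.ReflTransGen.refl, rfl⟩
    | tail h1 h2 ih =>
      obtain ⟨u, hu, rfl⟩ := ih h1
      obtain ⟨h3, v, hv, rfl⟩ := h2
      exact ⟨v, Relation.ReflTransGen.tail hu ⟨(h _ _).1 h3, hv⟩, rfl⟩
  · rintro ⟨u, hu, rfl⟩
    have hu' : Relation.ReflTransGen (step adj P) x u := hu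
    show Relation.ReflTransGen (step adj' (e '' P)) (e x) (e u)
    induction hu' with
    | refl => exact Relation.ReflTransGen.refl
    | tail h1 h2 ih =>
      exact Relation.ReflTransGen.tail (ih h1) ⟨(h _ _).2 h2.1, _, h2.2, rfl⟩

theorem con_image (h : ∀ a b, adj' (e a) (e b) ↔ adj a b) (P : Set E) (x y : E) :
    Con adj' (e '' P) (e x) (e y) ↔ Con adj P x y := by
  unfold Con
  rw [cl_image h]
  constructor
  · rintro ⟨_, ⟨u, hu, rfl⟩, h1⟩
    exact ⟨u, hu, (h _ _).1 h1⟩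
  · rintro ⟨u, hu, h1⟩
    exact ⟨e u, ⟨u, hu, rfl⟩, (h _ _).2 h1⟩

end Maps

theorem gco_image {d : ℕ} {r r' : ℝ} {e : Eu d → Eu d} (he : Function.Injective e)
    (h : ∀ a b, ad r' (e a) (e b) ↔ ad r a b) (N G : Set (Eu d)) (x : Eu d) :
    gco r' (e '' N) (e '' G) (e x) ↔ gco r N G x := by
  unfold gco
  rw [← Set.image_union, cl_image h]
  constructor
  · rintro ⟨_, ⟨g, hg, rfl⟩, u, hu, h1⟩
    rw [he h1] at hu
    exact ⟨g, hg, hu⟩
  · rintro ⟨g, hg, h1⟩
    exact ⟨e g, ⟨g, hg, rfl⟩, g, h1, rfl⟩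

/-! ### measurability of `gco` -/

theorem gco_meas (hO : MOpsStatement) (hM : MSumStatement) (hC : ConMStatement) (d : ℕ) (r : ℝ) :
    MeasurableSet {q : Eu d × Cfg (Eu d) × Cfg (Eu d) | gco r (pt q.2.1) (pt q.2.2) q.1} := by
  obtain ⟨a, ha, ha'⟩ := hO.1 (Eu d)
  have h1 : MeasurableSet {q : Eu d × Eu d × Cfg (Eu d) |
      Hs (ad r) ((fun p a : Eu d => a = p) q.1) (pt q.2.2) q.2.1} :=
    (hC (Eu d) (ad r) (madj_ad r)).2.1 (fun p a : Eu d => a = p)
      (measurableSet_eq_fun measurable_snd measurable_fst)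
  have h2 : MeasurableSet {q : (Eu d × Cfg (Eu d)) × Eu d × Cfg (Eu d) |
      (fun (t : Eu d × Cfg (Eu d)) (p : Eu d) (P : Set (Eu d)) =>
        p ∈ cl (ad r) (pt t.2 ∪ P) t.1) q.1 q.2.1 (pt q.2.2)} := by
    have h3 : Measurable fun q : (Eu d × Cfg (Eu d)) × Eu d × Cfg (Eu d) =>
        (q.2.1, q.1.1, a (q.1.2, q.2.2)) :=
      (measurable_fst.comp measurable_snd).prodMk ((measurable_fst.comp measurable_fst).prodMk
        (ha.comp ((measurable_snd.comp measurable_fst).prodMk (measurable_snd.comp measurable_snd))))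
    convert h3 h1 using 1
    ext q
    simp only [Set.mem_ofPred_eq, Set.mem_preimage, ha']
    unfold Hs
    constructor
    · intro h
      exact ⟨_, h, rfl⟩
    · rintro ⟨b, hb, rfl⟩
      exact hb
  have h4 := hM.2.1 (Eu d × Cfg (Eu d)) (Eu d)
    (fun (t : Eu d × Cfg (Eu d)) (p : Eu d) (P : Set (Eu d)) =>
        p ∈ cl (ad r) (pt t.2 ∪ P) t.1) h2
  have h5 : Measurable fun q : Eu d × Cfg (Eu d) × Cfg (Eu d) => ((q.1, q.2.1), q.2.2) :=
    (measurable_fst.prodMk (measurable_fst.comp measurable_snd)).prodMk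
      (measurable_snd.comp measurable_snd)
  exact h5 h4

/-- `gp` as an iterated integral -/
theorem gp_eq (hO : MOpsStatement) (hM : MSumStatement) (hC : ConMStatement) (d : ℕ) (r : ℝ)
    (ρn ρg : Measure (Eu d)) [IsFiniteMeasure ρn] [IsFiniteMeasure ρg] (x : Eu d) :
    gp r ρn ρg x = ∫⁻ ωn, ∫⁻ ωg, ind (gco r (pt ωn) (pt ωg) x) ∂PL ρg ∂PL ρn := by
  have hP : IsProbabilityMeasure (PL ρn) := (prob _ ρn).1
  have hP' : IsProbabilityMeasure (PL ρg) := (prob _ ρg).1
  have h1 : MeasurableSet {q : Cfg (Eu d) × Cfg (Eu d) | gco r (pt q.1) (pt q.2) x} :=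
    (measurable_const.prodMk measurable_id :
      Measurable fun q : Cfg (Eu d) × Cfg (Eu d) => (x, q)) (gco_meas hO hM hC d r)
  unfold gp
  rw [← lintegral_ind h1, lintegral_prod _ (measurable_ind h1).aemeasurable]

/-- the image of both processes -/
theorem gp_image (hI : ImgStatement) (hO : MOpsStatement) (hM : MSumStatement)
    (hC : ConMStatement) (d : ℕ) (r r' : ℝ) (e : Eu d → Eu d) (hem : Measurable e)
    (he : Function.Injective e) (h : ∀ a b, ad r' (e a) (e b) ↔ ad r a b)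
    (ρn ρg : Measure (Eu d)) [IsFiniteMeasure ρn] [IsFiniteMeasure ρg] (x : Eu d) :
    gp r' (ρn.map e) (ρg.map e) (e x) = gp r ρn ρg x := by
  have hP : IsProbabilityMeasure (PL ρn) := (prob _ ρn).1
  have hP' : IsProbabilityMeasure (PL ρg) := (prob _ ρg).1
  have hf1 : IsFiniteMeasure (ρn.map e) := inferInstance
  have hf2 : IsFiniteMeasure (ρg.map e) := inferInstance
  obtain ⟨m, hm, hm'⟩ := hO.2.2 (Eu d) (Eu d) e hem
  have h1 : Measurable fun q : Cfg (Eu d) × Cfg (Eu d) =>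
      ind (gco r' (pt q.1) (pt q.2) (e x)) :=
    measurable_ind ((measurable_const.prodMk measurable_id :
      Measurable fun q : Cfg (Eu d) × Cfg (Eu d) => (e x, q)) (gco_meas hO hM hC d r'))
  rw [gp_eq hO hM hC, gp_eq hO hM hC]
  have h2 : ∀ ωn : Cfg (Eu d), ∫⁻ ωg, ind (gco r' (pt ωn) (pt ωg) (e x)) ∂PL (ρg.map e) =
      ∫⁻ ωg, ind (gco r' (pt ωn) (e '' pt ωg) (e x)) ∂PL ρg := fun ωn =>
    hI (Eu d) (Eu d) ρg e (fun G => ind (gco r' (pt ωn) G (e x))) hem
      (h1.comp (measurable_const.prodMk measurable_id))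
  simp only [h2]
  have h3 : CM fun N : Set (Eu d) => ∫⁻ ωg, ind (gco r' N (e '' pt ωg) (e x)) ∂PL ρg := by
    unfold CM
    have h4 : Measurable fun q : Cfg (Eu d) × Cfg (Eu d) =>
        ind (gco r' (pt q.1) (e '' pt q.2) (e x)) := by
      have h5 := h1.comp (measurable_fst.prodMk (hm.comp measurable_snd))
      convert h5 using 1
      funext q
      simp only [Function.comp_apply, hm']
    exact h4.lintegral_prod_right'
  rw [hI (Eu d) (Eu d) ρn e (fun N => ∫⁻ ωg, ind (gco r' N (e '' pt ωg) (e x)) ∂PL ρg) hem h3]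
  refine lintegral_congr fun ωn => lintegral_congr fun ωg => ind_congr ?_
  exact gco_image he h _ _ _

/-! ### scaling -/

section Scale

variable {d : ℕ}

theorem map_leb {r : ℝ} (hr : 0 < r) (lam : ℝ≥0) (V : Set (Eu d)) :
    (leb lam V).map (fun z : Eu d => r⁻¹ • z) =
      leb (lam * Real.toNNReal (r ^ d)) ((fun z : Eu d => r⁻¹ • z) '' V) := by
  have hem : Measurable fun z : Eu d => r⁻¹ • z := measurable_const_smul _
  have hinj : Function.Injective fun z : Eu d => r⁻¹ • z :=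
    smul_right_injective _ (inv_ne_zero hr.ne')
  ext s hs
  unfold leb
  rw [Measure.map_smul, Measure.smul_apply, Measure.smul_apply, Measure.map_apply hem hs,
    Measure.restrict_apply (hem hs), Measure.restrict_apply hs, smul_eq_mul, smul_eq_mul]
  have h1 : (fun z : Eu d => r⁻¹ • z) ⁻¹' s ∩ V =
      (fun z : Eu d => r⁻¹ • z) ⁻¹' (s ∩ (fun z : Eu d => r⁻¹ • z) '' V) := by
    rw [Set.preimage_inter, Set.preimage_image_eq _ hinj]
  rw [h1, Measure.addHaar_preimage_smul _ (inv_ne_zero hr.ne')]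
  have h2 : ENNReal.ofReal |((r⁻¹) ^ Module.finrank ℝ (Eu d))⁻¹| =
      ((Real.toNNReal (r ^ d) : ℝ≥0) : ℝ≥0∞) := by
    rw [inv_pow, inv_inv, abs_of_pos (by positivity), finrank_euclideanSpace, Fintype.card_fin]
    rfl
  rw [h2, ENNReal.coe_mul, mul_assoc]

theorem toNNReal_ne {r : ℝ} (hr : 0 < r) : Real.toNNReal (r ^ d) ≠ 0 := by
  rw [Ne, Real.toNNReal_eq_zero, not_le]
  positivity

theorem map_leb_lamr {r : ℝ} (hr : 0 < r) (lam c : ℝ≥0) (V : Set (Eu d)) :
    (leb (lamr d lam r * c) V).map (fun z : Eu d => r⁻¹ • z) =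
      leb (lam * c) ((fun z : Eu d => r⁻¹ • z) '' V) := by
  rw [map_leb hr]
  congr 1
  unfold lamr
  have := toNNReal_ne (d := d) hr
  field_simp

theorem ad_scale {r : ℝ} (hr : 0 < r) (a b : Eu d) : ad 1 (r⁻¹ • a) (r⁻¹ • b) ↔ ad r a b := by
  unfold ad
  rw [dist_smul₀, norm_inv, Real.norm_of_nonneg hr.le, inv_mul_le_iff₀ hr, mul_one]

theorem bal_image {r : ℝ} (hr : 0 < r) (L : ℝ) :
    (fun z : Eu d => r⁻¹ • z) '' bal (0 : Eu d) L = bal (0 : Eu d) (L / r) := by
  unfold bal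
  ext z
  constructor
  · rintro ⟨u, hu, rfl⟩
    rw [mem_closedBall_zero_iff] at hu ⊢
    rw [norm_smul, norm_inv, Real.norm_of_nonneg hr.le, le_div_iff₀ hr]
    field_simp
    exact hu
  · intro hz
    rw [mem_closedBall_zero_iff] at hz
    refine ⟨r • z, ?_, ?_⟩
    · rw [mem_closedBall_zero_iff, norm_smul, Real.norm_of_nonneg hr.le]
      rw [le_div_iff₀ hr] at hz
      linarith
    · simp only
      rw [smul_smul, inv_mul_cancel₀ hr.ne', one_smul]

theorem dom_image {r : ℝ} (hr : 0 < r) {V : Set (Eu d)} (hV : Dom V) :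
    Dom ((fun z : Eu d => r⁻¹ • z) '' V) := by
  constructor
  · exact (MeasurableEquiv.smul₀ r⁻¹ (inv_ne_zero hr.ne')).measurableSet_image.2 hV.1
  · have h1 := hV.2.smul₀ r⁻¹
    exact h1

end Scale

theorem scal (hI : ImgStatement) (hO : MOpsStatement) (hM : MSumStatement) (hC : ConMStatement)
    (hG : MagPStatement) : ScalStatement := by
  intro d lam r hd hr
  have hem : Measurable fun z : Eu d => r⁻¹ • z := measurable_const_smul _
  have hinj : Function.Injective fun z : Eu d => r⁻¹ • z :=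
    smul_right_injective _ (inv_ne_zero hr.ne')
  refine ⟨?_, ?_⟩
  · intro V x y hV
    have hf : IsFiniteMeasure (leb (lamr d lam r) V) := finite_leb _ hV.2
    have h0 := map_leb_lamr hr lam 1 V
    rw [mul_one, mul_one] at h0
    unfold tau tp
    rw [← h0]
    have hC1 := (hC (Eu d) (ad 1) (madj_ad 1)).1
    have hC2 := (hC (Eu d) (ad r) (madj_ad r)).1
    have h1 : MeasurableSet {ω : Cfg (Eu d) | Con (ad 1) (pt ω) (r⁻¹ • x) (r⁻¹ • y)} :=
      (measurable_const.prodMk (measurable_const.prodMk measurable_id) :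
        Measurable fun ω : Cfg (Eu d) => (r⁻¹ • x, r⁻¹ • y, ω)) hC1
    have h2 : MeasurableSet {ω : Cfg (Eu d) | Con (ad r) (pt ω) x y} :=
      (measurable_const.prodMk (measurable_const.prodMk measurable_id) :
        Measurable fun ω : Cfg (Eu d) => (x, y, ω)) hC2
    rw [← lintegral_ind h1, ← lintegral_ind h2,
      hI (Eu d) (Eu d) (leb (lamr d lam r) V) (fun z : Eu d => r⁻¹ • z)
        (fun P => ind (Con (ad 1) P (r⁻¹ • x) (r⁻¹ • y))) hem (measurable_ind h1)]
    refine lintegral_congr fun ω => ind_congr ?_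
    exact (con_image (e := fun z : Eu d => r⁻¹ • z) (fun a b => ad_scale hr a b) _ _ _).symm
  · intro h hh
    have key : ∀ L : ℝ, magL d (lamr d lam r) r h L = magL d lam 1 h (L / r) := by
      intro L
      unfold magL
      have hf1 : IsFiniteMeasure (leb (lamr d lam r * (1 - h)) (bal (0 : Eu d) L)) :=
        finite_leb _ (dom_bal 0 L).2
      have hf2 : IsFiniteMeasure (leb (lamr d lam r * h) (bal (0 : Eu d) L)) :=
        finite_leb _ (dom_bal 0 L).2
      have h1 := gp_image hI hO hM hC d r 1 (fun z : Eu d => r⁻¹ • z) hem hinj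
        (fun a b => ad_scale hr a b) (leb (lamr d lam r * (1 - h)) (bal (0 : Eu d) L))
        (leb (lamr d lam r * h) (bal (0 : Eu d) L)) 0
      rw [← h1, map_leb_lamr hr, map_leb_lamr hr, bal_image hr]
      simp only [smul_zero]
    have hmono := (hG d lam 1 h hd zero_le_one hh).1
    unfold Mag
    apply le_antisymm
    · refine iSup_le fun L => ?_
      rw [key]
      obtain ⟨n, hn⟩ := exists_nat_ge ((L : ℝ) / r)
      exact (hmono _ _ hn).trans (le_iSup (fun L : ℕ => magL d lam 1 h L) n)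
    · refine iSup_le fun L => ?_
      obtain ⟨n, hn⟩ := exists_nat_ge ((L : ℝ) * r)
      refine le_trans ?_ (le_iSup (fun L : ℕ => magL d (lamr d lam r) r h L) n)
      rw [key]
      apply hmono
      rw [le_div_iff₀ hr]
      exact hn

end Pool.Agent.Lib.MP_5349a4_pr.H27
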